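import Pool.Agent.R87.Triple

/-!
# A disconnected minimum-order (7,8,8)-graph

The disjoint union of the blowup of the 5-cycle by triangles (15 vertices) and of a complete
graph on seven vertices has the least possible order among all graphs with clique number 7,
chromatic number 8 and maximum degree 8.
-/

set_option autoImplicit false

namespace Pool.Agent.Results.MP_663e97_co.DisconnectedMinimal

open Pool.Agent.R87.Triple

/-- There is a graph on 22 vertices that is a minimum-order (7,8,8)-graph and is not
connected. -/
theorem result : ∃ G : SimpleGraph (Fin 22), IsMinimumOrder G 7 8 8 ∧ ¬ G.Connected :=
  ⟨GG, isMinimumOrder, not_connected⟩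

end Pool.Agent.Results.MP_663e97_co.DisconnectedMinimal
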