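import Pool.Agent.R87.Triple

/-!
# A minimum-order (7,8,8)-graph in which no vertex of degree 8 lies in a 7-clique
-/

set_option autoImplicit false

namespace Pool.Agent.Results.MP_663e97_co.MaxDegreeAvoidsCliques

open Pool.Agent.R87.Triple

open Classical in
/-- There is a minimum-order (7,8,8)-graph on 22 vertices in which no vertex of degree 8 lies
in a clique with seven vertices. -/
theorem result : ∃ G : SimpleGraph (Fin 22), IsMinimumOrder G 7 8 8 ∧
    ∀ v : Fin 22, G.degree v = 8 → ∀ s : Finset (Fin 22), G.IsNClique 7 s → v ∉ s := by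
  refine ⟨GG, isMinimumOrder, ?_⟩
  intro v hv s hs
  exact avoid v _ hv s hs

end Pool.Agent.Results.MP_663e97_co.MaxDegreeAvoidsCliques
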